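import Pool.Agent.H29.PK.Far

/-!
# Every convex body in space has a lattice packing of density greater than `1/4`

`dL`, `dT` are the suprema of the densities of the lattice packings and of the packings by
translates, `mn` is the minimum over all convex bodies (`Body`), see `Pool.Agent.TH219.DL.Defs`.

Proof: after a linear change of coordinates the least ellipsoid containing `K - K` is the unit ball,
and `e` is a contact point of weight at least `1/2` in John's decomposition. Let `A B C` be an
inscribed triangle of maximal area of the shadow `S` of `K` along `e`, and `α, β, γ` the normalised
distances by which `S` reaches beyond its sides. If `α + β + γ ≥ 0.0313`, Fáry's planar lattice for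
`S` has density greater than `2/3`, precisely determinant at most `1.485 |S|`, and columns over this
lattice shifted to its deep holes have density at least `0.2506`. If `α + β + γ < 0.0313`, `K` is
packed by the lattice of the vectors `(rᵢ, Lᵢ)`, where `r₁, r₂, r₃` are the halves of the directed
sides of a triangle homothetic to `A B C` that contains `S`, and the vertical components have sum
`15 |K|`; that such `Lᵢ` exist is an estimate of sums of vertical differences of points of `K` over
the three corners of `S` by volumes of tetrahedra in `K`.
-/

namespace Pool.Agent.Results.MP_3d065d_co.LatticeAboveQuarter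

open Pool.Agent.TH219.DL

theorem result :
    (∀ K : Set (Fin 3 → ℝ), Body K → ENNReal.ofReal 0.2506 ≤ dL K) ∧
      ENNReal.ofReal 0.2506 ≤ mn dL ∧ ENNReal.ofReal 0.2506 ≤ mn dT :=
  ⟨fun _ hK => Pool.Agent.H29.PK.low2 hK, le_iInf₂ fun _ hK => Pool.Agent.H29.PK.low2 hK,
    le_iInf₂ fun K hK => (Pool.Agent.H29.PK.low2 hK).trans (dL_le_dT K)⟩

end Pool.Agent.Results.MP_3d065d_co.LatticeAboveQuarter
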