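import Pool.Agent.H29.PK.Shadow

/-!
# Lattice packings of convex bodies with a (nearly) triangular projection

If the image of a convex body `K` in space under a linear map onto the plane lies between a triangle
and a homothetic copy of it of ratio `σ`, then `K` has a lattice packing of density at least
`4 / (15 σ²)`; in particular `δ_L(K) ≥ 4/15` if some projection of `K` is a triangle.
`dL` is the supremum of the densities of the lattice packings, see `Pool.Agent.TH219.DL.Defs`.
-/

namespace Pool.Agent.Results.MP_3d065d_co.TriangularShadow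

open Pool.Agent.TH219.DL

theorem result (K : Set (Fin 3 → ℝ)) (hK : Body K) (f : (Fin 3 → ℝ) →ₗ[ℝ] (Fin 2 → ℝ))
    (a b c p : Fin 2 → ℝ) (σ : ℝ) (habc : AffineIndependent ℝ ![a, b, c]) (hσ : 0 < σ)
    (h1 : convexHull ℝ {a, b, c} ⊆ f '' K)
    (h2 : f '' K ⊆ (fun x => p + σ • x) '' convexHull ℝ {a, b, c}) :
    ENNReal.ofReal (4 / (15 * σ ^ 2)) ≤ dL K :=
  Pool.Agent.H29.PK.shadow_low hK f habc hσ h1 h2

end Pool.Agent.Results.MP_3d065d_co.TriangularShadow
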